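import Pool.Agent.ACK.StmtsA

/-! Row DIC of squad ACK (MP_0b396c_gt): at most five chains, or six chains and small circles. -/

set_option autoImplicit false

namespace Pool.Agent.ACK.H44

theorem gw_even (l : List ℕ) (h : Gw l) : Even l.length := by
  rw [← List.sum_toFinset_count_eq_length l]
  refine Finset.even_sum _ (fun x hx => ?_)
  rw [h x (List.mem_toFinset.1 hx)]
  exact even_two

theorem dic (h1 : GfwStmt) (h2 : PrwStmt) (h3 : RotStmt) (h4 : NlpStmt) (_h8 : CwgStmt)
    (h5 : SizStmt) (h6 : GpbStmt) (h7 : CstStmt) (h9 : MonStmt) : DicStmt := by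
  intro c l s hc hk hn
  have hc1 : 1 ≤ c := by omega
  haveI : NeZero (2 * c) := ⟨by omega⟩
  have h3c : 3 ≤ 2 * c := by omega
  have hnl := h4 (2 * c) (wd c l) h3c (h1 c l hc1 hk.len hk.gw) (h2 c l hk hc1)
  obtain ⟨C, b, hcw, hty, hrot, hb⟩ := h7 c l s hc1 hk.len hk.gw hnl
  obtain ⟨-, hnc, hkn⟩ := h3 c l (BL C b) hc1 hk.len hrot
  have hkb : Kn c (BL C b) := hkn hk
  by_cases h10 : b.length ≤ 10
  · exact Or.inl ⟨BL C b, hrot, C, b, hcw, h10, rfl, hkb.len⟩
  right
  rcases hb with hb | hb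
  · omega
  have hgf : Gf (wd c (BL C b)) := h1 c (BL C b) hc1 hkb.len hkb.gw
  have hpr : PrF (wd c (BL C b)) := h2 c (BL C b) hkb hc1
  have hnl' := h4 (2 * c) (wd c (BL C b)) h3c hgf hpr
  have hs := h5 (2 * c) (wd c (BL C b)) s hgf hnl'
  have hn' : nc (wd c (BL C b)) s + 2 = c := by
    rw [hnc s]
    exact hn
  have hinj := (h6 c C b hc1 hcw hkb.len).2
  have hcard : b.length + Nat.card {p : ZMod (2 * c) // ∃ q, Bg (wd c (BL C b)) s p q} ≤ 2 * c := by
    have hf : Function.Injective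
        (Sum.elim (fun k : Fin b.length => gp c C b k.val)
          (fun p : {p : ZMod (2 * c) // ∃ q, Bg (wd c (BL C b)) s p q} => p.val)) := by
      rintro (k | ⟨p, hp⟩) (k' | ⟨p', hp'⟩) hh
      · simp only [Sum.elim_inl] at hh
        have := hinj k.val k.isLt k'.val k'.isLt hh
        rw [Fin.ext this]
      · simp only [Sum.elim_inl, Sum.elim_inr] at hh
        obtain ⟨q, hq⟩ := hp'
        exact absurd (hh ▸ hq) (hb k.val k.isLt q)
      · simp only [Sum.elim_inl, Sum.elim_inr] at hh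
        obtain ⟨q, hq⟩ := hp
        exact absurd (hh ▸ hq) (hb k'.val k'.isLt q)
      · simp only [Sum.elim_inr] at hh
        subst hh
        rfl
    have := Nat.card_le_card_of_injective _ hf
    rw [Nat.card_sum, Nat.card_fin, Nat.card_zmod] at this
    exact this
  have hsm : ∀ p q r t : ZMod (2 * c), [p, q, r, t].Nodup →
      ¬ (cl (wd c (BL C b)) s p = cl (wd c (BL C b)) s q ∧
        cl (wd c (BL C b)) s p = cl (wd c (BL C b)) s r ∧
        cl (wd c (BL C b)) s p = cl (wd c (BL C b)) s t) := by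
    intro p q r t hnd hh
    have := hs.2 ⟨p, q, r, t, hnd, hh⟩
    omega
  have hev : Even b.length := by
    have := gw_even _ hcw.tw
    rwa [List.length_map] at this
  have hs1 := hs.1
  have hlen : b.length = 12 := by
    obtain ⟨m, hm⟩ := hev
    omega
  have hmon := h9 c (BL C b) s hc hkb hsm
  refine ⟨C, b, hrot, hkb, hcw, hty, hlen, ?_, hn', by omega, hsm⟩
  intro k hk12 q
  exact hb k (by omega) q

end Pool.Agent.ACK.H44
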